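import Pool.Agent.TH705.RR.Sph
set_option autoImplicit false

/-!
# MP_b1773a: full Hausdorff dimension of Kakeya sets after one random rotation

`n ≥ 2`.  A family of lines with one line in every direction is given by an arbitrary measurable map
`a` from the unit sphere to `ℝ^n`: the line number `e` is `{a e + t e : t ∈ ℝ}`.  Decouple positions
and directions by ONE rotation `g` (Haar distributed in `O(n)`, or in any compact group acting
transitively on the unit sphere): either all the positions are moved by `g` and the directions are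
kept, `{g (a e) + t e}`, or the positions are kept and the directions are moved, `{a e + t g e}`.
For almost every `g`, every set `K` which contains parts of positive length (for instance unit
segments) of the lines number `e`, for all `e` in a set of positive outer surface measure, has full
Hausdorff dimension `n`.  Nothing is assumed on `K`, and `K` may depend on `g`.

More generally, if the law of `g` has dimension `α` and the directions have dimension `β`, the
Hausdorff dimension is at least `1 + min α β`.
-/

open MeasureTheory Metric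
open scoped ENNReal

namespace Pool.Agent.Results.MP_b1773a_an.GenericRotations

/-- The space `ℝ^n`. -/
abbrev Rn (n : ℕ) : Type := EuclideanSpace ℝ (Fin n)

/-- The linear isometries of `ℝ^n` (as a group: the orthogonal group). -/
abbrev Iso (n : ℕ) : Type := Rn n ≃ₗᵢ[ℝ] Rn n

/-- The image `g v` of the vector `v` under the isometry `g`. -/
noncomputable def ap {n : ℕ} (g : Iso n) (v : Rn n) : Rn n := g v

/-- The unit sphere. -/
abbrev Sph (n : ℕ) : Type := sphere (0 : Rn n) 1

/-- The surface measure on the unit sphere. -/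
noncomputable def surf (n : ℕ) : Measure (Sph n) := (volume : Measure (Rn n)).toSphere

/-- `g` is a measurable family of isometries (a random isometry). -/
def Random {n : ℕ} {Ω : Type} [MeasurableSpace Ω] (g : Ω → Iso n) : Prop :=
  ∀ v : Rn n, Measurable (fun ω => ap (g ω) v)

/-- The law of the image `g v` of every unit vector `v` under the random isometry `g` has dimension
at least `α`, uniformly, with constant `A`. -/
def Spread {n : ℕ} {Ω : Type} [MeasurableSpace Ω] (P : Measure Ω) (g : Ω → Iso n) (A α : ℝ) : Prop :=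
  ∀ v w : Rn n, ‖v‖ = 1 → ‖w‖ = 1 → ∀ s : ℝ, 0 < s →
    P {ω | ‖ap (g ω) v - w‖ ≤ s} ≤ ENNReal.ofReal (A * s ^ α)

/-- `e` is a measurable family of unit vectors (directions), whose distribution has dimension at
least `β`, with constant `B`. -/
def Directions {n : ℕ} {V : Type} [MeasurableSpace V] (ν : Measure V) (e : V → Rn n) (B β : ℝ) :
    Prop :=
  Measurable e ∧ (∀ v, ‖e v‖ = 1) ∧
    ∀ u : Rn n, ‖u‖ = 1 → ∀ r : ℝ, 0 < r → ν {v | ‖e v - u‖ ≤ r} ≤ ENNReal.ofReal (B * r ^ β)

/-- Every set `K ⊆ ℝ^n` that contains a part of positive length (positive outer measure) of the line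
`{b v + t e v : t ∈ ℝ}` for all `v` in a set `S` of positive outer measure has Hausdorff dimension at
least `γ`. -/
def DimAtLeast {n : ℕ} {V : Type} [MeasurableSpace V] (ν : Measure V) (b e : V → Rn n) (γ : ℝ) :
    Prop :=
  ∀ (K : Set (Rn n)) (S : Set V), ν S ≠ 0 → (∀ v ∈ S, volume {t : ℝ | b v + t • e v ∈ K} ≠ 0) →
    ENNReal.ofReal γ ≤ dimH K

/-- `ρ` is an action of the group `G` by linear isometries of `ℝ^n`. -/
def Action {n : ℕ} {G : Type} [Group G] (ρ : G → Iso n) : Prop :=
  ∀ (k l : G) (v : Rn n), ap (ρ (k * l)) v = ap (ρ k) (ap (ρ l) v)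

/-- `ρ` is continuous in `k` and transitive on the unit sphere. -/
def Transitive {n : ℕ} {G : Type} [TopologicalSpace G] (ρ : G → Iso n) : Prop :=
  (∀ v : Rn n, Continuous (fun k => ap (ρ k) v)) ∧
    ∀ v w : Rn n, ‖v‖ = 1 → ‖w‖ = 1 → ∃ k, ap (ρ k) v = w

/-- Every set `K ⊆ ℝ^n` that contains a part of positive length of the line
`{b e + t d e : t ∈ ℝ}` for all `e` in a set `S` of positive outer surface measure has full Hausdorff
dimension `n`. -/
def FullDimension {n : ℕ} (b d : Sph n → Rn n) : Prop :=
  ∀ (K : Set (Rn n)) (S : Set (Sph n)), surf n S ≠ 0 →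
    (∀ e ∈ S, volume {t : ℝ | b e + t • d e ∈ K} ≠ 0) → dimH K = n

theorem dimAtLeast_of {n : ℕ} {V : Type} [MeasurableSpace V] {ν : Measure V} {b e : V → Rn n}
    {γ : ℝ} (h : ∀ K : Set (Rn n), dimH K < ENNReal.ofReal γ →
      ∀ᵐ v ∂ν, volume {t : ℝ | b v + t • e v ∈ K} = 0) : DimAtLeast ν b e γ := by
  intro K S hS hK
  by_contra hlt
  push Not at hlt
  apply hS
  have h1 := h K hlt
  rw [ae_iff] at h1
  refine measure_mono_null ?_ h1
  intro v hv
  exact hK v hv

theorem full_of {n : ℕ} {b d : Sph n → Rn n}
    (h : DimAtLeast (surf n) b d (1 + min ((n : ℝ) - 1) ((n : ℝ) - 1))) : FullDimension b d := by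
  intro K S hS hK
  have h1 := h K S hS hK
  rw [min_self, add_sub_cancel, ENNReal.ofReal_natCast] at h1
  refine le_antisymm ?_ h1
  calc dimH K ≤ dimH (Set.univ : Set (Rn n)) := dimH_mono (Set.subset_univ K)
    _ = n := by
        rw [Real.dimH_univ_eq_finrank, finrank_euclideanSpace_fin]

/-- **Full Hausdorff dimension of Kakeya sets after one random rotation.** -/
theorem result (n : ℕ) (hn : 2 ≤ n) :
    -- (1) laws of dimension `α`, directions of dimension `β`: dimension at least `1 + min α β`
    (∀ A α B β : ℝ, 0 ≤ A → 0 < α → 0 ≤ B → 0 < β →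
      ∀ (V : Type) [MeasurableSpace V] (ν : Measure V) [IsFiniteMeasure ν] (e a : V → Rn n),
        Directions ν e B β → Measurable a →
      ∀ (Ω : Type) [MeasurableSpace Ω] (P : Measure Ω) [IsProbabilityMeasure P] (g : Ω → Iso n),
        Random g → Spread P g A α →
      ∀ᵐ ω ∂P, DimAtLeast ν (fun v => ap (g ω) (a v)) e (1 + min α β) ∧
        DimAtLeast ν a (fun v => ap (g ω) (e v)) (1 + min α β)) ∧
    -- (2) compact groups acting transitively on the unit sphere, for instance `O(n)` or `SO(n)`,
    -- with the normalised Haar measure, and all directions: full dimension `n`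
    (∀ (G : Type) [Group G] [TopologicalSpace G] [IsTopologicalGroup G] [CompactSpace G]
      [MeasurableSpace G] [BorelSpace G] (μ : Measure G) [μ.IsHaarMeasure] [IsProbabilityMeasure μ]
      (ρ : G → Iso n), Action ρ → Transitive ρ → ∀ a : Sph n → Rn n, Measurable a →
      ∀ᵐ k ∂μ, FullDimension (fun e => ap (ρ k) (a e)) (fun e => (e : Rn n)) ∧
        FullDimension a (fun e => ap (ρ k) (e : Rn n))) ∧
    -- (3) in particular (from `O(n)`): for every measurable choice of the positions there is a
    -- rotation of the positions for which all these sets have full dimension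
    (∀ a : Sph n → Rn n, Measurable a →
      ∃ g : Iso n, FullDimension (fun e => ap g (a e)) (fun e => (e : Rn n))) := by
  have h1 : ∀ A α B β : ℝ, 0 ≤ A → 0 < α → 0 ≤ B → 0 < β →
      ∀ (V : Type) [MeasurableSpace V] (ν : Measure V) [IsFiniteMeasure ν] (e a : V → Rn n),
        Directions ν e B β → Measurable a →
      ∀ (Ω : Type) [MeasurableSpace Ω] (P : Measure Ω) [IsProbabilityMeasure P] (g : Ω → Iso n),
        Random g → Spread P g A α →
      ∀ᵐ ω ∂P, DimAtLeast ν (fun v => ap (g ω) (a v)) e (1 + min α β) ∧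
        DimAtLeast ν a (fun v => ap (g ω) (e v)) (1 + min α β) := by
    intro A α B β hA hα hB hβ V _ ν _ e a ⟨hem, he, hF⟩ ha Ω _ P _ g hg hsp
    have k1 := TH705.RR.dim_general (n := n) (ν := ν) (P := P) (g := g) hg ha hem he hA hB hα hβ
      hsp hF
    have k2 := TH705.RR.dim_general_dir (n := n) (ν := ν) (P := P) (g := g) hg ha hem he hA hB hα
      hβ hsp hF
    filter_upwards [k1, k2] with ω h1 h2
    exact ⟨dimAtLeast_of h1, dimAtLeast_of h2⟩
  have hn0 : (0 : ℝ) < (n : ℝ) - 1 := by
    have : (2 : ℝ) ≤ n := by exact_mod_cast hn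
    linarith
  have h2 : ∀ (G : Type) [Group G] [TopologicalSpace G] [IsTopologicalGroup G] [CompactSpace G]
      [MeasurableSpace G] [BorelSpace G] (μ : Measure G) [μ.IsHaarMeasure] [IsProbabilityMeasure μ]
      (ρ : G → Iso n), Action ρ → Transitive ρ → ∀ a : Sph n → Rn n, Measurable a →
      ∀ᵐ k ∂μ, FullDimension (fun e => ap (ρ k) (a e)) (fun e => (e : Rn n)) ∧
        FullDimension a (fun e => ap (ρ k) (e : Rn n)) := by
    intro G _ _ _ _ _ _ μ _ _ ρ hact hρ a ha
    obtain ⟨hρ, htr⟩ := hρ
    have hm : ∀ v, Measurable (fun k => ρ k v) := fun v => (hρ v).measurable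
    have hsp : Spread μ ρ (5 * 2 ^ n) ((n : ℝ) - 1) :=
      TH705.RR.spread_group (by omega) μ (MonoidHom.mk' ρ (fun k l => by
        ext v : 1
        exact hact k l v)) hm htr
    have hv := TH705.RR.vb_pos n
    have hfin : IsFiniteMeasure (surf n) := by
      unfold surf
      infer_instance
    have hF := TH705.RR.surf_frost (n := n) (by omega)
    have hem : Measurable (fun w : Sph n => (w : Rn n)) := measurable_subtype_coe
    have he1 : ∀ w : Sph n, ‖(w : Rn n)‖ = 1 := fun v => by simp
    have h3 := h1 (5 * 2 ^ n) ((n : ℝ) - 1) ((n : ℝ) * (2 ^ n * TH705.RR.vb n * 5)) ((n : ℝ) - 1)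
      (by positivity) hn0 (by positivity) hn0 (Sph n) (surf n) (fun w => (w : Rn n)) a
      ⟨hem, he1, hF⟩ ha G μ ρ hm hsp
    filter_upwards [h3] with k hk
    exact ⟨full_of hk.1, full_of hk.2⟩
  refine ⟨h1, h2, ?_⟩
  intro a ha
  let _ : MeasurableSpace (TH705.RR.On n) := borel _
  have _ : BorelSpace (TH705.RR.On n) := ⟨rfl⟩
  let K : TopologicalSpace.PositiveCompacts (TH705.RR.On n) := ⊤
  have hK : Measure.haarMeasure K Set.univ = 1 := by
    exact Measure.haarMeasure_self (K₀ := K)
  have _ : IsProbabilityMeasure (Measure.haarMeasure K) := ⟨hK⟩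
  have h3 := h2 (TH705.RR.On n) (Measure.haarMeasure K) (TH705.RR.act n)
    (fun k l v => rfl) ⟨TH705.RR.act_cont, TH705.RR.act_trans⟩ a ha
  obtain ⟨k, hk⟩ := h3.exists
  exact ⟨TH705.RR.act n k, hk.1⟩

end Pool.Agent.Results.MP_b1773a_an.GenericRotations
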