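import Pool.Agent.Results.MP_b1773a_an.HybridKakeya
import Pool.Agent.Results.MP_b1773a_an.ReducibleSelection
import Pool.Agent.W769.Kak.Wrap
import Pool.Agent.Q321.Kk.Fib

set_option autoImplicit false

/-!
# MP_b1773a: Kakeya sets which are skew products over arbitrary Kakeya sets

Points of `ℝ^n`, `n = k + m + 1`, are written `(x, z)`, `x ∈ ℝ^k`, `z ∈ ℝ^(m+1)`, and directions
`(u, e)`, `u ∈ ℝ^k`, `e` a unit vector of `ℝ^(m+1)`. We consider sets `K` which contain, for every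
direction `(u, e)`, a segment of the line `{(b + t u, a + t e) : t ∈ ℝ}`, where `a` is an arbitrary
function of `e` and `b` is an arbitrary function of `e`, which depends on `u` continuously, with
finite energy `∬ |b u - b u'|^k / |u - u'|^(2k-1)` (critical Sobolev class), or with a Hölder exponent
greater than `1 - 1/k`.

The dimension of `K` is at least `k` plus every lower bound for the dimension of the sets of
`ℝ^(m+1)` which meet the lines `a e + ℝ e` in positive length. So it is `n` if `m = 1`, or if the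
family `a` is reducible.
-/

open MeasureTheory Set Metric Filter Topology
open scoped ENNReal NNReal

namespace Pool.Agent.Results.MP_b1773a_an.SkewProducts

open Pool.Agent.Q321.Kk

/-- Euclidean space of dimension `n`. -/
abbrev E (n : ℕ) := EuclideanSpace ℝ (Fin n)

/-- `β` is a lower bound for the Hausdorff dimension of all sets of `ℝ^(m+1)` which meet the line
`a e + ℝ e` in a set of positive outer length for all `e` in `S`. -/
def FamilyBound {m : ℕ} (a : E (m + 1) → E (m + 1)) (S : Set (sphere (0 : E (m + 1)) 1)) (β : ℝ) :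
    Prop :=
  ∀ A : Set (E (m + 1)), (∀ e ∈ S, 0 < volume {t : ℝ | a e + t • (e : E (m + 1)) ∈ A}) →
    ENNReal.ofReal β ≤ dimH A

/-- The double integral of `|b u - b v|^k / |u - v|^(2k-1)` over the square of the closed cube with
centre `u₀` and half side `R`. -/
noncomputable def energy {k : ℕ} (b : (Fin k → ℝ) → Fin k → ℝ) (u₀ : Fin k → ℝ) (R : ℝ) : ℝ≥0∞ :=
  ∫⁻ u in closedBall u₀ R, ∫⁻ v in closedBall u₀ R, ‖b u - b v‖ₑ ^ k / ‖u - v‖ₑ ^ (2 * k - 1)

/-- `b` is continuous on the closed cube with centre `u₀` and half side `R > 0`, and has finite energy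
there or satisfies a Hölder condition with an exponent greater than `1 - 1/k`. -/
def Regular {k : ℕ} (b : (Fin k → ℝ) → Fin k → ℝ) (u₀ : Fin k → ℝ) (R : ℝ) : Prop :=
  0 < R ∧ ContinuousOn b (closedBall u₀ R) ∧ (energy b u₀ R ≠ ⊤ ∨
    ∃ C α : ℝ, 0 < α ∧ (k : ℝ) - 1 < α * k ∧ ∀ u ∈ closedBall u₀ R, ∀ v ∈ closedBall u₀ R,
      ‖b u - b v‖ ≤ C * ‖u - v‖ ^ α)

/-- For every `e` in `S` there are a cube `Q` in `ℝ^k`, a function `b` which is regular on `Q`, and a
set `T` of positive outer measure such that `K` contains the points `(b u + t u, a e + t e)`,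
`u ∈ Q`, `t ∈ T`. -/
def Contains {k m : ℕ} (a : E (m + 1) → E (m + 1)) (S : Set (sphere (0 : E (m + 1)) 1))
    (K : Set ((Fin k → ℝ) × E (m + 1))) : Prop :=
  ∀ e ∈ S, ∃ (b : (Fin k → ℝ) → Fin k → ℝ) (u₀ : Fin k → ℝ) (R : ℝ) (T : Set ℝ),
    Regular b u₀ R ∧ 0 < volume T ∧
    ∀ u ∈ closedBall u₀ R, ∀ t ∈ T, (b u + t • u, a e + t • (e : E (m + 1))) ∈ K

/-- For every `e` in `S` there are a cube `Q` in `ℝ^k` and a function `b` which is regular on `Q`,
such that for all `u ∈ Q` the set `K` contains a nondegenerate segment of the line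
`{(b u + t u, a e + t e) : t ∈ ℝ}`. -/
def ContainsSegments {k m : ℕ} (a : E (m + 1) → E (m + 1)) (S : Set (sphere (0 : E (m + 1)) 1))
    (K : Set ((Fin k → ℝ) × E (m + 1))) : Prop :=
  ∀ e ∈ S, ∃ (b : (Fin k → ℝ) → Fin k → ℝ) (u₀ : Fin k → ℝ) (R : ℝ),
    Regular b u₀ R ∧ ∀ u ∈ closedBall u₀ R, ∃ s s' : ℝ, s < s' ∧
      ∀ t ∈ Icc s s', (b u + t • u, a e + t • (e : E (m + 1))) ∈ K

/-- a common interval for a smaller cube (Baire) -/
theorem exists_common {k : ℕ} {b : (Fin k → ℝ) → Fin k → ℝ} {u₀ : Fin k → ℝ} {R : ℝ} (hR : 0 < R)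
    (hb : ContinuousOn b (closedBall u₀ R)) {P : ℝ → (Fin k → ℝ) → Prop}
    (hP : ∀ t, IsClosed {x | P t x})
    (hK : ∀ u ∈ closedBall u₀ R, ∃ s s' : ℝ, s < s' ∧ ∀ t ∈ Icc s s', P t (b u + t • u)) :
    ∃ (u₁ : Fin k → ℝ) (r t₁ t₂ : ℝ), 0 < r ∧ closedBall u₁ r ⊆ closedBall u₀ R ∧ t₁ < t₂ ∧
      ∀ u ∈ closedBall u₁ r, ∀ t ∈ Icc t₁ t₂, P t (b u + t • u) := by
  classical
  let Q : Set (Fin k → ℝ) := closedBall u₀ R
  have hQc : IsClosed Q := isClosed_closedBall
  let F : ℚ × ℚ → Set (Fin k → ℝ) := fun q =>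
    if (q.1 : ℝ) < q.2 then {v ∈ Q | ∀ t ∈ Icc (q.1 : ℝ) q.2, P t (b v + t • v)} else ∅
  have hF : ∀ q, IsClosed (F q) := by
    intro q
    by_cases hq : (q.1 : ℝ) < q.2
    · simp only [F, if_pos hq]
      have h1 : {v ∈ Q | ∀ t ∈ Icc (q.1 : ℝ) q.2, P t (b v + t • v)} =
          ⋂ t ∈ Icc (q.1 : ℝ) q.2, {v ∈ Q | P t (b v + t • v)} := by
        ext v
        simp only [mem_ofPred_eq, mem_iInter]
        constructor
        · rintro ⟨h1, h2⟩ t ht
          exact ⟨h1, h2 t ht⟩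
        · intro h
          exact ⟨(h q.1 ⟨le_rfl, hq.le⟩).1, fun t ht => (h t ht).2⟩
      rw [h1]
      refine isClosed_biInter fun t _ => ?_
      have hc : ContinuousOn (fun v => b v + t • v) Q := by fun_prop
      exact hc.preimage_isClosed_of_isClosed hQc (hP t)
    · simp only [F, if_neg hq]; exact isClosed_empty
  have hcov : ball u₀ R ⊆ ⋃ q, F q := by
    intro v hv
    obtain ⟨s, s', hs, h⟩ := hK v (ball_subset_closedBall hv)
    obtain ⟨q₁, h1, h2⟩ := exists_rat_btwn hs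
    obtain ⟨q₂, h3, h4⟩ := exists_rat_btwn h2
    refine mem_iUnion.2 ⟨(q₁, q₂), ?_⟩
    simp only [F, if_pos h3]
    exact ⟨ball_subset_closedBall hv, fun t ht => h t ⟨h1.le.trans ht.1, ht.2.trans h4.le⟩⟩
  have hne : ∃ q, (interior (F q)).Nonempty := by
    by_contra hcon
    push Not at hcon
    have hmeager : IsMeagre (⋃ q, F q) := by
      refine isMeagre_iUnion fun q => ?_
      refine IsNowhereDense.isMeagre ?_
      rw [(hF q).isNowhereDense_iff]
      exact hcon q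
    have h2 : IsMeagre (ball u₀ R) := hmeager.mono hcov
    have h3 : (ball u₀ R).Nonempty := nonempty_ball.2 hR
    have h4 := dense_of_mem_residual h2
    obtain ⟨x, hx, hx2⟩ := h4.inter_open_nonempty _ isOpen_ball h3
    exact hx2 hx
  obtain ⟨⟨q₁, q₂⟩, v₁, hv₁⟩ := hne
  have hq : (q₁ : ℝ) < q₂ := by
    by_contra h
    have := interior_subset hv₁
    simp only [F, if_neg h] at this
    exact this
  obtain ⟨r, hr, hr2⟩ := nhds_basis_closedBall.mem_iff.1 (mem_interior_iff_mem_nhds.1 hv₁)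
  simp only [F, if_pos hq] at hr2
  exact ⟨v₁, r, q₁, q₂, hr, fun v hv => (hr2 hv).1, hq, fun v hv => (hr2 hv).2⟩

theorem energy_mono {k : ℕ} {b : (Fin k → ℝ) → Fin k → ℝ} {v₀ v₁ : Fin k → ℝ} {R r : ℝ}
    (h : closedBall v₁ r ⊆ closedBall v₀ R) : energy b v₁ r ≤ energy b v₀ R := by
  unfold energy
  exact (lintegral_mono_set h).trans (lintegral_mono fun v => lintegral_mono_set h)

theorem contains_of_segments {k m : ℕ} {a : E (m + 1) → E (m + 1)}
    {S : Set (sphere (0 : E (m + 1)) 1)} {K : Set ((Fin k → ℝ) × E (m + 1))}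
    (hKc : IsClosed K) (h : ContainsSegments a S K) : Contains a S K := by
  intro e he
  obtain ⟨b, u₀, R, ⟨hR, hb, hE⟩, hs⟩ := h e he
  obtain ⟨u₁, r, t₁, t₂, hr, hsub, ht, hin⟩ := exists_common hR hb
    (P := fun t x => (x, a e + t • (e : E (m + 1))) ∈ K)
    (fun t => hKc.preimage (by fun_prop :
      Continuous fun x : Fin k → ℝ => (x, a e + t • (e : E (m + 1))))) hs
  refine ⟨b, u₁, r, Icc t₁ t₂, ⟨hr, hb.mono hsub, ?_⟩, ?_, hin⟩
  · rcases hE with hE | ⟨C, α, h1, h2, h3⟩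
    · exact Or.inl (ne_top_of_le_ne_top hE (energy_mono hsub))
    · exact Or.inr ⟨C, α, h1, h2, fun u hu v hv => h3 u (hsub hu) v (hsub hv)⟩
  rw [Real.volume_Icc]
  exact ENNReal.ofReal_pos.2 (sub_pos.2 ht)

/-- the base points with big fibres -/
def big {k m : ℕ} (K : Set ((Fin k → ℝ) × E (m + 1))) : Set (E (m + 1)) :=
  {z | volume (fibre K z) ≠ 0}

theorem base {k m : ℕ} (hk : 0 < k) {a : E (m + 1) → E (m + 1)}
    {S : Set (sphere (0 : E (m + 1)) 1)} {K : Set ((Fin k → ℝ) × E (m + 1))}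
    (h : Contains a S K) : ∀ e ∈ S, 0 < volume {t : ℝ | a e + t • (e : E (m + 1)) ∈ big K} := by
  intro e he
  obtain ⟨b, u₀, R, T, ⟨hR, hb, hE⟩, hT, hin⟩ := h e he
  have h1 : {t : ℝ | volume ((fun v => b v + t • v) '' closedBall u₀ R) = 0}.encard ≤ k :=
    Pool.Agent.W769.Kak.encard_bad_le fun t ht => by
      rcases hE with hE | ⟨C, α, hα0, hα, hC⟩
      · exact Pool.Agent.W769.Kak.slices_on hk u₀ hR hb hE t ht
      · exact Pool.Agent.W769.Kak.slices_hoelder_on hk u₀ hR hα0 hα hb hC t ht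
  have h2 : volume {t : ℝ | volume ((fun v => b v + t • v) '' closedBall u₀ R) = 0} = 0 :=
    (Set.finite_of_encard_le_coe h1).measure_zero _
  rw [← measure_sdiff_null h2] at hT
  refine hT.trans_le (measure_mono ?_)
  rintro t ⟨ht1, ht2⟩
  refine fun h3 => ht2 ?_
  refine measure_mono_null ?_ h3
  rintro _ ⟨u, hu, rfl⟩
  exact hin u hu t ht1

theorem lower {k m : ℕ} {β : ℝ} (hβ : 0 < β) {K : Set ((Fin k → ℝ) × E (m + 1))}
    (h1 : ENNReal.ofReal β ≤ dimH (big K)) : ENNReal.ofReal (k + β) ≤ dimH K := by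
  by_contra hcon
  push Not at hcon
  set x : ℝ := (dimH K).toReal with hx
  have hxt : dimH K ≠ ⊤ := ne_top_of_lt hcon
  have hx1 : x < k + β := (ENNReal.lt_ofReal_iff_toReal_lt hxt).1 hcon
  set s' : ℝ := max ((x - k + β) / 2) (β / 2) with hs'
  have hs0 : 0 < s' := lt_max_of_lt_right (by positivity)
  have hs1 : s' < β := max_lt (by linarith) (by linarith)
  have hs2 : x < k + s' := by
    have := le_max_left ((x - k + β) / 2) (β / 2)
    rw [← hs'] at this
    linarith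
  have h2 := dim_base_le hs0 (K := K) ((ENNReal.lt_ofReal_iff_toReal_lt hxt).2 hs2)
  have h3 : ENNReal.ofReal s' < ENNReal.ofReal β := (ENNReal.ofReal_lt_ofReal_iff hβ).2 hs1
  exact absurd (h1.trans h2) (not_le.2 h3)

theorem hybrid {m : ℕ} (hm : 1 ≤ m) {c : ℝ} (hc1 : 1 ≤ c)
    (hc : 0 ≤ (m : ℝ) * (c ^ 3 - 4 * c + 2) + c * (3 * c - 1 - c ^ 2))
    (a : E (m + 1) → E (m + 1)) {S : Set (sphere (0 : E (m + 1)) 1)}
    (hS : (volume : Measure (E (m + 1))).toSphere S ≠ 0) : FamilyBound a S (1 + m / c) := by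
  intro A hA
  have := HybridKakeya.result (m + 1) (by omega) c hc1 (by
    push_cast; rw [add_sub_cancel_right]; exact hc) (Subtype.val '' S) A (by
      have h1 : {e : sphere (0 : E (m + 1)) 1 | (e : E (m + 1)) ∈ Subtype.val '' S} = S := by
        ext e; simp
      rw [h1]; exact hS) (by
      rintro _ ⟨e, he, rfl⟩ -
      exact ⟨a e, hA e he⟩)
  push_cast at this
  rwa [add_sub_cancel_right] at this

theorem finrank_le {k m : ℕ} (K : Set ((Fin k → ℝ) × E (m + 1))) :
    dimH K ≤ ((k + m + 1 : ℕ) : ℝ≥0∞) := by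
  calc dimH K ≤ dimH (univ : Set ((Fin k → ℝ) × E (m + 1))) := dimH_mono (subset_univ _)
    _ = _ := by
      rw [Real.dimH_univ_eq_finrank]
      simp
      ring

/-- **Skew products over arbitrary Kakeya sets.** Let `k, m ≥ 1`, let `S` be a set of directions of
`ℝ^(m+1)` of positive outer measure, and `a` any function (family of lines `a e + ℝ e`). Let
`K ⊆ ℝ^k × ℝ^(m+1)` contain the points `(b u + t u, a e + t e)` as described in `Contains`, or let `K`
be closed and contain nondegenerate segments as described in `ContainsSegments`.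
(1) `dim_H K ≥ k + β` for all `β > 0` with `FamilyBound a S β`.
(2) `dim_H K ≥ k + 1 + m / c` if `c ≥ 1` and `m (c³ - 4 c + 2) + c (3 c - 1 - c²) ≥ 0`.
(3) `dim_H K = k + m + 1` if `m = 1` or if the family `a` is reducible. -/
theorem result (k m : ℕ) (hk : 1 ≤ k) (hm : 1 ≤ m) (a : E (m + 1) → E (m + 1))
    (S : Set (sphere (0 : E (m + 1)) 1)) (hS : (volume : Measure (E (m + 1))).toSphere S ≠ 0)
    (K : Set ((Fin k → ℝ) × E (m + 1)))
    (hK : Contains a S K ∨ (IsClosed K ∧ ContainsSegments a S K)) :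
    (∀ β : ℝ, 0 < β → FamilyBound a S β → ENNReal.ofReal (k + β) ≤ dimH K) ∧
    (∀ c : ℝ, 1 ≤ c → 0 ≤ (m : ℝ) * (c ^ 3 - 4 * c + 2) + c * (3 * c - 1 - c ^ 2) →
      ENNReal.ofReal (k + 1 + m / c) ≤ dimH K) ∧
    (m = 1 ∨ Pool.Agent.H742R2.Kk.Reducible (m + 1) a → dimH K = ((k + m + 1 : ℕ) : ℝ≥0∞)) := by
  have hC : Contains a S K := hK.elim id fun h => contains_of_segments h.1 h.2
  have hb := base hk hC
  have h1 : ∀ β : ℝ, 0 < β → FamilyBound a S β → ENNReal.ofReal (k + β) ≤ dimH K :=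
    fun β hβ hB => lower hβ (hB _ hb)
  have h2 : ∀ c : ℝ, 1 ≤ c → 0 ≤ (m : ℝ) * (c ^ 3 - 4 * c + 2) + c * (3 * c - 1 - c ^ 2) →
      ENNReal.ofReal (k + 1 + m / c) ≤ dimH K := by
    intro c hc1 hc
    have := h1 (1 + m / c) (by positivity) (hybrid hm hc1 hc a hS)
    rwa [← add_assoc] at this
  refine ⟨h1, h2, ?_⟩
  rintro (hm1 | hred)
  · refine le_antisymm (finrank_le K) ?_
    subst hm1
    have := h2 1 le_rfl (by norm_num)
    refine le_trans (le_of_eq ?_) this
    rw [← ENNReal.ofReal_natCast]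
    congr 1
    push_cast
    ring
  · refine le_antisymm (finrank_le K) ?_
    obtain ⟨_c, _hc, h3⟩ := ReducibleSelection.result (m + 1) (by omega)
    have h4 := (h3 a hred S (big K)).1 hb (pos_iff_ne_zero.2 hS)
    have h5 := lower (k := k) (K := K) (β := (m + 1 : ℕ)) (by positivity) (by
      rw [h4, ENNReal.ofReal_natCast])
    refine le_trans (le_of_eq ?_) h5
    rw [← ENNReal.ofReal_natCast]
    congr 1
    push_cast
    ring

end Pool.Agent.Results.MP_b1773a_an.SkewProducts
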