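import Pool.Agent.W769.Kak.Wrap

set_option autoImplicit false

/-!
# MP_b1773a: Kakeya sets with a continuous selection of the critical Sobolev class

For directions `(1, v)`, `v` in a closed cube `Q` of `ℝ^d`, `n = d + 1`, let `a v` be the position at
height `0` of a line with direction `(1, v)`. If `a` is continuous on `Q` and of class `W^{1-1/d, d}`,
that is, `∬ |a v - a w|^d / |v - w|^{2d-1} < ∞`, then every closed set which contains a segment of
each of the lines has positive Lebesgue measure and Hausdorff dimension `n`.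
-/

open MeasureTheory Set Metric
open scoped ENNReal

namespace Pool.Agent.Results.MP_b1773a_an.SobolevSelection

/-- The double integral of `|a v - a w|^d / |v - w|^(2d-1)` over the square of the closed cube with
centre `v₀` and half side `R`; it is finite iff `a` is of class `W^{1-1/d, d}` there. -/
noncomputable def energy {d : ℕ} (a : (Fin d → ℝ) → Fin d → ℝ) (v₀ : Fin d → ℝ) (R : ℝ) : ℝ≥0∞ :=
  ∫⁻ v in closedBall v₀ R, ∫⁻ w in closedBall v₀ R, ‖a v - a w‖ₑ ^ d / ‖v - w‖ₑ ^ (2 * d - 1)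

/-- The point at height `t` of the line with direction `(1, v)` through `(0, p)`. -/
def pt {d : ℕ} (p v : Fin d → ℝ) (t : ℝ) : Fin (d + 1) → ℝ := Fin.cons t (p + t • v)

theorem energy_mono {d : ℕ} {a : (Fin d → ℝ) → Fin d → ℝ} {v₀ v₁ : Fin d → ℝ} {R r : ℝ}
    (h : closedBall v₁ r ⊆ closedBall v₀ R) : energy a v₁ r ≤ energy a v₀ R := by
  unfold energy
  exact (lintegral_mono_set h).trans (lintegral_mono fun v => lintegral_mono_set h)

/-- Common interval of heights. -/
theorem common {d : ℕ} (hd : 0 < d) {a : (Fin d → ℝ) → Fin d → ℝ} {v₀ : Fin d → ℝ} {R : ℝ}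
    (hR : 0 < R) (ha : ContinuousOn a (closedBall v₀ R)) (hE : energy a v₀ R ≠ ⊤) :
    {t : ℝ | volume ((fun v => a v + t • v) '' closedBall v₀ R) = 0}.encard ≤ d :=
  Pool.Agent.W769.Kak.encard_bad_le fun t ht =>
    Pool.Agent.W769.Kak.slices_on hd v₀ hR ha hE t ht

theorem volume_pos_common {d : ℕ} (hd : 0 < d) {a : (Fin d → ℝ) → Fin d → ℝ} {v₀ : Fin d → ℝ} {R : ℝ}
    (hR : 0 < R) (ha : ContinuousOn a (closedBall v₀ R)) (hE : energy a v₀ R ≠ ⊤) {t₁ t₂ : ℝ}
    (ht : t₁ < t₂) {K : Set (Fin (d + 1) → ℝ)}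
    (hK : ∀ v ∈ closedBall v₀ R, ∀ t ∈ Icc t₁ t₂, pt (a v) v t ∈ K) : volume K ≠ 0 := by
  refine Pool.Agent.W769.Kak.swept_pos (a := a) (σ := id) ha continuousOn_id ht ?_ hK
  have h := common hd hR ha hE
  exact (Set.finite_of_encard_le_coe h).countable

/-- A closed set with arbitrary segments contains segments over a common interval for a smaller
cube. -/
theorem exists_common {d : ℕ} {a : (Fin d → ℝ) → Fin d → ℝ} {v₀ : Fin d → ℝ} {R : ℝ} (hR : 0 < R)
    (ha : ContinuousOn a (closedBall v₀ R)) {K : Set (Fin (d + 1) → ℝ)} (hKc : IsClosed K)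
    (hK : ∀ v ∈ closedBall v₀ R, ∃ s s' : ℝ, s < s' ∧ ∀ t ∈ Icc s s', pt (a v) v t ∈ K) :
    ∃ (v₁ : Fin d → ℝ) (r t₁ t₂ : ℝ), 0 < r ∧ closedBall v₁ r ⊆ closedBall v₀ R ∧ t₁ < t₂ ∧
      ∀ v ∈ closedBall v₁ r, ∀ t ∈ Icc t₁ t₂, pt (a v) v t ∈ K := by
  classical
  let Q : Set (Fin d → ℝ) := closedBall v₀ R
  have hQc : IsClosed Q := isClosed_closedBall
  let F : ℚ × ℚ → Set (Fin d → ℝ) := fun q =>
    if (q.1 : ℝ) < q.2 then {v ∈ Q | ∀ t ∈ Icc (q.1 : ℝ) q.2, pt (a v) v t ∈ K} else ∅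
  have hF : ∀ q, IsClosed (F q) := by
    intro q
    by_cases hq : (q.1 : ℝ) < q.2
    · simp only [F, if_pos hq]
      have h1 : {v ∈ Q | ∀ t ∈ Icc (q.1 : ℝ) q.2, pt (a v) v t ∈ K} =
          ⋂ t ∈ Icc (q.1 : ℝ) q.2, {v ∈ Q | pt (a v) v t ∈ K} := by
        ext v
        simp only [mem_ofPred_eq, mem_iInter]
        constructor
        · rintro ⟨h1, h2⟩ t ht
          exact ⟨h1, h2 t ht⟩
        · intro h
          exact ⟨(h q.1 ⟨le_rfl, hq.le⟩).1, fun t ht => (h t ht).2⟩
      rw [h1]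
      refine isClosed_biInter fun t _ => ?_
      have hc : ContinuousOn (fun v => pt (a v) v t) Q := by
        unfold pt
        rw [continuousOn_pi]
        intro i
        refine Fin.cases ?_ (fun j => ?_) i
        · simp only [Fin.cons_zero]; exact continuousOn_const
        · simp only [Fin.cons_succ, Pi.add_apply, Pi.smul_apply, smul_eq_mul]
          exact ((continuous_apply j).comp_continuousOn ha).add
            (continuousOn_const.mul (continuous_apply j).continuousOn)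
      exact hc.preimage_isClosed_of_isClosed hQc hKc
    · simp only [F, if_neg hq]; exact isClosed_empty
  -- Baire category in the open cube
  have hcov : ball v₀ R ⊆ ⋃ q, F q := by
    intro v hv
    obtain ⟨s, s', hs, h⟩ := hK v (ball_subset_closedBall hv)
    obtain ⟨q₁, h1, h2⟩ := exists_rat_btwn hs
    obtain ⟨q₂, h3, h4⟩ := exists_rat_btwn h2
    refine mem_iUnion.2 ⟨(q₁, q₂), ?_⟩
    simp only [F, if_pos h3]
    exact ⟨ball_subset_closedBall hv, fun t ht => h t ⟨h1.le.trans ht.1, ht.2.trans h4.le⟩⟩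
  have hne : ∃ q, (interior (F q)).Nonempty := by
    by_contra hcon
    push Not at hcon
    have hcl : ∀ q, IsClosed (F q) := hF
    have hmeager : IsMeagre (⋃ q, F q) := by
      refine isMeagre_iUnion fun q => ?_
      refine IsNowhereDense.isMeagre ?_
      rw [(hcl q).isNowhereDense_iff]
      exact hcon q
    have h2 : IsMeagre (ball v₀ R) := hmeager.mono hcov
    have h3 : (ball v₀ R).Nonempty := nonempty_ball.2 hR
    have h4 := dense_of_mem_residual h2
    obtain ⟨x, hx, hx2⟩ := h4.inter_open_nonempty _ isOpen_ball h3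
    exact hx2 hx
  obtain ⟨⟨q₁, q₂⟩, v₁, hv₁⟩ := hne
  have hq : (q₁ : ℝ) < q₂ := by
    by_contra h
    have := interior_subset hv₁
    simp only [F, if_neg h] at this
    exact this
  obtain ⟨r, hr, hr2⟩ := nhds_basis_closedBall.mem_iff.1 (mem_interior_iff_mem_nhds.1 hv₁)
  simp only [F, if_pos hq] at hr2
  exact ⟨v₁, r, q₁, q₂, hr, fun v hv => (hr2 hv).1, hq, fun v hv => (hr2 hv).2⟩

/-- **Main result.** Let `Q ⊆ ℝ^d` be a closed cube and let `a` be continuous and of class
`W^{1-1/d, d}` on `Q`.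

(1) For all but at most `d` heights `t` the slice `{a v + t v : v ∈ Q}` of the union of the lines
`{(t, a v + t v) : t ∈ ℝ}` has positive measure.

(2) Every set which contains the parts of the lines over one interval of heights has positive measure
and Hausdorff dimension `d + 1`.

(3) The same for every closed set that contains some nondegenerate segment of each line. -/
theorem result (d : ℕ) (hd : 0 < d) (a : (Fin d → ℝ) → Fin d → ℝ) (v₀ : Fin d → ℝ) (R : ℝ)
    (hR : 0 < R) (ha : ContinuousOn a (closedBall v₀ R)) (hE : energy a v₀ R ≠ ⊤) :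
    {t : ℝ | volume ((fun v => a v + t • v) '' closedBall v₀ R) = 0}.encard ≤ d ∧
    (∀ (t₁ t₂ : ℝ), t₁ < t₂ → ∀ K : Set (Fin (d + 1) → ℝ),
      (∀ v ∈ closedBall v₀ R, ∀ t ∈ Icc t₁ t₂, pt (a v) v t ∈ K) →
      0 < volume K ∧ dimH K = ((d + 1 : ℕ) : ℝ≥0∞)) ∧
    ∀ K : Set (Fin (d + 1) → ℝ), IsClosed K →
      (∀ v ∈ closedBall v₀ R, ∃ s s' : ℝ, s < s' ∧ ∀ t ∈ Icc s s', pt (a v) v t ∈ K) →
      0 < volume K ∧ dimH K = ((d + 1 : ℕ) : ℝ≥0∞) := by
  have hdim : ∀ K : Set (Fin (d + 1) → ℝ), volume K ≠ 0 →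
      0 < volume K ∧ dimH K = ((d + 1 : ℕ) : ℝ≥0∞) := by
    intro K hK
    refine ⟨pos_iff_ne_zero.2 hK, le_antisymm ?_ ?_⟩
    · calc dimH K ≤ dimH (univ : Set (Fin (d + 1) → ℝ)) := dimH_mono (subset_univ _)
        _ = _ := by rw [Real.dimH_univ_pi_fin]
    · have h1 : (Measure.hausdorffMeasure ((Fintype.card (Fin (d + 1)) : ℕ) : ℝ) :
        Measure (Fin (d + 1) → ℝ)) = volume := hausdorffMeasure_pi_real
      rw [Fintype.card_fin] at h1
      have h2 := le_dimH_of_hausdorffMeasure_ne_zero (s := K) (d := ((d + 1 : ℕ) : NNReal)) (by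
        rw [← h1] at hK
        simpa using hK)
      simpa using h2
  refine ⟨common hd hR ha hE, ?_, ?_⟩
  · intro t₁ t₂ ht K hK
    exact hdim K (volume_pos_common hd hR ha hE ht hK)
  · intro K hKc hK
    obtain ⟨v₁, r, t₁, t₂, hr, hsub, ht, h⟩ := exists_common hR ha hKc hK
    exact hdim K (volume_pos_common hd hr (ha.mono hsub)
      (ne_top_of_le_ne_top hE (energy_mono hsub)) ht h)

end Pool.Agent.Results.MP_b1773a_an.SobolevSelection
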