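import Pool.Agent.Q126.KB.Dim

/-!
# Typical Kakeya sets, and uniform forms of the Kakeya conjecture (all dimensions)

Let `𝒦` be the space of all (compact) Kakeya sets of `ℝⁿ` with the Hausdorff distance; it is a
non-empty closed subset of the complete space of the non-empty compact sets.  The word typical is meant in
the sense of Baire category in `𝒦`.

Zero-one laws: for every doubling gauge function `h`, either the `h`-Hausdorff contents of all
Kakeya sets in a given ball have a common positive lower bound, or a typical Kakeya set is a null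
set of the Hausdorff measure of `h`.  For every doubling function `ψ` of the radius, either
`|N_δ K| ≥ b ψ(δ)` for all `0 < δ < 1` and all Kakeya sets `K` in a given ball, with a common
positive constant `b`, or `liminf |N_δ K| / ψ(δ) = 0` for a typical Kakeya set `K`.

Hence a typical Kakeya set has the smallest Hausdorff dimension and the smallest lower Minkowski
dimension of all Kakeya sets, the two minima being attained, and the two Kakeya conjectures (Q1 and
Q2) are equivalent to the same statements for typical Kakeya sets, and to uniform lower bounds.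
-/

set_option autoImplicit false

open MeasureTheory Metric Set Filter TopologicalSpace
open scoped Topology ENNReal NNReal

namespace Pool.Agent.Results.MP_b1773a_an.TypicalKakeyaSets

/-- `ℝⁿ` -/
abbrev E (n : ℕ) : Type := EuclideanSpace ℝ (Fin n)

/-- The space of all Kakeya sets: the non-empty compact sets which contain a unit line segment in
every direction, a subset of the space of the non-empty compact sets with the Hausdorff distance. -/
def Kakeya (n : ℕ) : Set (NonemptyCompacts (E n)) :=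
  {K | ∀ e : E n, ‖e‖ = 1 → ∃ a : E n, ∀ t ∈ Icc (0 : ℝ) 1, a + t • e ∈ (K : Set (E n))}

/-- A property holds for typical Kakeya sets: it holds on a residual (comeagre) subset of the
space of all Kakeya sets. -/
def Typical (n : ℕ) (P : Set (E n) → Prop) : Prop :=
  ∀ᶠ K : Kakeya n in residual (Kakeya n), P ((K : NonemptyCompacts (E n)) : Set (E n))

/-- Doubling gauge functions. -/
structure Gauge (h : ℝ≥0∞ → ℝ≥0∞) : Prop where
  mono : Monotone h
  pos : ∀ x, 0 < x → 0 < h x
  lim : Tendsto h (𝓝 0) (𝓝 0)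
  dbl : ∃ C : ℝ≥0∞, C ≠ ∞ ∧ ∀ x, h (2 * x) ≤ C * h x

/-- Doubling functions of the radius. -/
structure Scale (ψ : ℝ → ℝ≥0∞) : Prop where
  mono : ∀ x y, 0 < x → x ≤ y → ψ x ≤ ψ y
  dbl : ∃ C : ℝ≥0∞, C ≠ ∞ ∧ ∀ x, 0 < x → ψ (2 * x) ≤ C * ψ x

/-- The Hausdorff contents of the Kakeya sets in a ball have a positive lower bound. -/
def UniformContent (n : ℕ) (h : ℝ≥0∞ → ℝ≥0∞) : Prop :=
  ∀ R : ℝ, ∃ b : ℝ, 0 < b ∧ ∀ K ∈ Kakeya n, (K : Set (E n)) ⊆ closedBall 0 R →
    ∀ t : ℕ → Set (E n), (K : Set (E n)) ⊆ ⋃ i, t i → ENNReal.ofReal b ≤ ∑' i, h (ediam (t i))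

/-- The volumes of the `δ`-neighbourhoods of the Kakeya sets in a ball have the lower bound
`b ψ(δ)`, with one positive constant `b`. -/
def UniformVolume (n : ℕ) (ψ : ℝ → ℝ≥0∞) : Prop :=
  ∀ R : ℝ, ∃ b : ℝ, 0 < b ∧ ∀ K ∈ Kakeya n, (K : Set (E n)) ⊆ closedBall 0 R →
    ∀ δ, 0 < δ → δ < 1 → ENNReal.ofReal b * ψ δ ≤ volume (thickening δ (K : Set (E n)))

/-- The lower Minkowski dimension `n - limsup_{δ → 0+} log |N_δ K| / log δ`. -/
noncomputable def lowerMinkowski {n : ℕ} (K : Set (E n)) : EReal :=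
  n - limsup (fun δ : ℝ =>
    ((Real.log (volume (thickening δ K)).toReal / Real.log δ : ℝ) : EReal)) (𝓝[>] 0)

open Pool.Agent.Q126.KB in
lemma real_bound {b : ℝ≥0∞} (hb : 0 < b) : ∃ c : ℝ, 0 < c ∧ ENNReal.ofReal c ≤ b := by
  refine ⟨(min b 1).toReal, ENNReal.toReal_pos (lt_min hb one_pos).ne' ?_, ?_⟩
  · exact ((min_le_right _ _).trans_lt ENNReal.one_lt_top).ne
  · rw [ENNReal.ofReal_toReal ((min_le_right _ _).trans_lt ENNReal.one_lt_top).ne]
    exact min_le_left _ _

variable {n : ℕ}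

lemma gauge {h : ℝ≥0∞ → ℝ≥0∞} (hh : Gauge h) : Pool.Agent.Q126.KB.Gauge h :=
  ⟨hh.mono, hh.pos, hh.lim, hh.dbl⟩

lemma scale {ψ : ℝ → ℝ≥0∞} (hψ : Scale ψ) : Pool.Agent.Q126.KB.Scale ψ := ⟨hψ.mono, hψ.dbl⟩

open Pool.Agent.Q126.KB in
lemma content_dichotomy {h : ℝ≥0∞ → ℝ≥0∞} (hh : Pool.Agent.Q126.KB.Gauge h) :
    (UniformContent n h ∨ Typical n fun K => Measure.mkMetric h K = 0) ∧
    ¬ (UniformContent n h ∧ Typical n fun K => Measure.mkMetric h K = 0) := by
  constructor
  · rcases hausdorff_dichotomy (n := n) hh with h1 | h1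
    · exact Or.inr h1
    · refine Or.inl fun R => ?_
      obtain ⟨b, hb, hb'⟩ := h1 R
      obtain ⟨c, hc, hcb⟩ := real_bound hb
      exact ⟨c, hc, fun K hK hKR t ht => hcb.trans ((hb' K hK hKR).trans (content_le hh ht))⟩
  · rintro ⟨h1, h2⟩
    obtain ⟨K, hK⟩ := (show ∀ᶠ K : KSet n in residual (KSet n),
      Measure.mkMetric h ((K : NonemptyCompacts (Pool.Agent.Q126.KB.E n)) :
        Set (Pool.Agent.Q126.KB.E n)) = 0 from h2).exists
    obtain ⟨R, hR⟩ := exists_ball (K : NonemptyCompacts (Pool.Agent.Q126.KB.E n))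
    obtain ⟨b, hb, hb'⟩ := h1 R
    rw [null_iff hh] at hK
    obtain ⟨t, ht1, ht2⟩ := exists_cover hh (hK ▸ (ENNReal.ofReal_pos.2 hb) :
      content h ((K : NonemptyCompacts (Pool.Agent.Q126.KB.E n)) :
        Set (Pool.Agent.Q126.KB.E n)) < ENNReal.ofReal b)
    exact absurd (hb' K K.2 hR t ht1) (not_le.2 ht2)

open Pool.Agent.Q126.KB in
lemma vol_dichotomy {ψ : ℝ → ℝ≥0∞} (hψ : Pool.Agent.Q126.KB.Scale ψ) :
    UniformVolume n ψ ∨ Typical n fun K => ∀ r > 0, ∃ δ, 0 < δ ∧ δ < r ∧
      volume (thickening δ K) < ENNReal.ofReal r * ψ δ := by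
  rcases volume_dichotomy (n := n) hψ with h1 | h1
  · exact Or.inr h1
  · refine Or.inl fun R => ?_
    obtain ⟨b, hb, hb'⟩ := h1 R
    obtain ⟨c, hc, hcb⟩ := real_bound hb
    exact ⟨c, hc, fun K hK hKR δ h2 h3 => (mul_le_mul' hcb le_rfl).trans (hb' K hK hKR δ h2 h3)⟩

open Pool.Agent.Q126.KB in
lemma vol_exclusive {ψ : ℝ → ℝ≥0∞} :
    ¬ (UniformVolume n ψ ∧ Typical n fun K => ∀ r > 0, ∃ δ, 0 < δ ∧ δ < r ∧
      volume (thickening δ K) < ENNReal.ofReal r * ψ δ) := by
  rintro ⟨h1, h2⟩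
  obtain ⟨K, hK⟩ := (show ∀ᶠ K : KSet n in residual (KSet n), ∀ r > 0, ∃ δ, 0 < δ ∧ δ < r ∧
      volume (thickening δ ((K : NonemptyCompacts (Pool.Agent.Q126.KB.E n)) :
        Set (Pool.Agent.Q126.KB.E n))) < ENNReal.ofReal r * ψ δ from h2).exists
  obtain ⟨R, hR⟩ := exists_ball (K : NonemptyCompacts (Pool.Agent.Q126.KB.E n))
  obtain ⟨b, hb, hb'⟩ := h1 R
  obtain ⟨δ, h3, h4, h5⟩ := hK (min b 1) (lt_min hb one_pos)
  have h6 := hb' K K.2 hR δ h3 (h4.trans_le (min_le_right _ _))
  have h7 : ENNReal.ofReal (min b 1) * ψ δ ≤ ENNReal.ofReal b * ψ δ :=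
    mul_le_mul' (ENNReal.ofReal_le_ofReal (min_le_left _ _)) le_rfl
  exact absurd h5 (not_lt.2 (h7.trans h6))

open Pool.Agent.Q126.KB in
lemma lowerMinkowski_eq (K : NonemptyCompacts (E n)) :
    lowerMinkowski (K : Set (E n)) = n - codim K := rfl

open Pool.Agent.Q126.KB in
lemma lowerMinkowski_le (K : NonemptyCompacts (E n)) : lowerMinkowski (K : Set (E n)) ≤ n := by
  rw [lowerMinkowski_eq]
  calc (n : EReal) - codim K ≤ n - 0 := EReal.sub_le_sub le_rfl (codim_nonneg K)
    _ = n := by simp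

open Pool.Agent.Q126.KB in
lemma lowerMinkowski_lt_iff (K : NonemptyCompacts (E n)) :
    lowerMinkowski (K : Set (E n)) < n ↔ 0 < codim K := by
  rw [lowerMinkowski_eq]
  constructor
  · intro h
    refine lt_of_le_of_ne (codim_nonneg K) fun h0 => ?_
    rw [← h0] at h
    simp at h
  · intro h
    refine EReal.sub_lt_of_lt_add' ?_
    have h1 := EReal.add_lt_add_right_coe h (n : ℝ)
    rw [zero_add] at h1
    exact_mod_cast h1

open Pool.Agent.Q126.KB in
/-- see the claim -/
theorem result (n : ℕ) :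
    (Kakeya n).Nonempty ∧ IsClosed (Kakeya n) ∧
    -- the zero-one law for Hausdorff measures
    (∀ h : ℝ≥0∞ → ℝ≥0∞, Gauge h →
      (UniformContent n h ∨ Typical n fun K => Measure.mkMetric h K = 0) ∧
      ¬ (UniformContent n h ∧ Typical n fun K => Measure.mkMetric h K = 0)) ∧
    -- the zero-one law for the volumes of the neighbourhoods
    (∀ ψ : ℝ → ℝ≥0∞, Scale ψ →
      (UniformVolume n ψ ∨ Typical n fun K => ∀ r > 0, ∃ δ, 0 < δ ∧ δ < r ∧
        volume (thickening δ K) < ENNReal.ofReal r * ψ δ) ∧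
      ¬ (UniformVolume n ψ ∧ Typical n fun K => ∀ r > 0, ∃ δ, 0 < δ ∧ δ < r ∧
        volume (thickening δ K) < ENNReal.ofReal r * ψ δ)) ∧
    -- typical Kakeya sets have the smallest dimensions
    (Typical n fun K => ∀ L ∈ Kakeya n,
      dimH K ≤ dimH (L : Set (E n)) ∧ lowerMinkowski K ≤ lowerMinkowski (L : Set (E n))) ∧
    (∃ K ∈ Kakeya n, ∀ L ∈ Kakeya n, dimH (K : Set (E n)) ≤ dimH (L : Set (E n)) ∧
      lowerMinkowski (K : Set (E n)) ≤ lowerMinkowski (L : Set (E n))) ∧
    -- Q1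
    List.TFAE [∀ K ∈ Kakeya n, dimH (K : Set (E n)) = n,
      Typical n fun K => dimH K = n,
      ¬ Typical n fun K => dimH K < n,
      ∀ s : ℝ, 0 < s → s < n → UniformContent n fun x => x ^ s] ∧
    -- Q2
    List.TFAE [∀ K ∈ Kakeya n, lowerMinkowski (K : Set (E n)) = n,
      Typical n fun K => lowerMinkowski K = n,
      ¬ Typical n fun K => lowerMinkowski K < n,
      ∀ ε : ℝ, 0 < ε → UniformVolume n fun δ => ENNReal.ofReal (δ ^ ε)] := by
  have hdim : Typical n fun K => ∀ L ∈ Kakeya n,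
      dimH K ≤ dimH (L : Set (E n)) ∧ lowerMinkowski K ≤ lowerMinkowski (L : Set (E n)) := by
    have h1 : ∀ᶠ K : KSet n in residual (KSet n), ∀ L ∈ KSet n,
      dimH ((K : NonemptyCompacts (E n)) : Set (E n)) ≤ dimH (L : Set (E n)) ∧
        lowerMinkowski ((K : NonemptyCompacts (E n)) : Set (E n)) ≤
          lowerMinkowski (L : Set (E n)) := by
      filter_upwards [residual_dimH (n := n), residual_codim (n := n)] with K hK1 hK2 L hL
      refine ⟨hK1 L hL, ?_⟩
      rw [lowerMinkowski_eq, lowerMinkowski_eq]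
      exact EReal.sub_le_sub le_rfl (hK2 L hL)
    exact h1
  have hdim' : ∀ᶠ K : KSet n in residual (KSet n), ∀ L ∈ KSet n,
      dimH ((K : NonemptyCompacts (E n)) : Set (E n)) ≤ dimH (L : Set (E n)) ∧
        lowerMinkowski ((K : NonemptyCompacts (E n)) : Set (E n)) ≤
          lowerMinkowski (L : Set (E n)) := hdim
  have hfalse : ¬ Typical n fun _ => False := by
    intro h
    have h1 : ∀ᶠ _ : KSet n in residual (KSet n), False := h
    obtain ⟨_, hK⟩ := h1.exists
    exact hK
  have tand : ∀ {P Q : Set (E n) → Prop}, Typical n P → Typical n Q →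
      Typical n fun K => P K ∧ Q K := fun hP hQ => Filter.Eventually.and hP hQ
  have tmono : ∀ {P Q : Set (E n) → Prop}, Typical n P → (∀ K ∈ Kakeya n, P K → Q K) →
      Typical n Q := fun hP hPQ => Filter.Eventually.mono hP fun K hK => hPQ K K.2 hK
  refine ⟨⟨unitBall n, unitBall_mem n⟩, isClosed_KSet n,
    fun h hh => content_dichotomy (gauge hh), fun ψ hψ => ⟨vol_dichotomy (scale hψ), vol_exclusive⟩,
    hdim, ?_, ?_, ?_⟩
  · obtain ⟨K, hK⟩ := hdim'.exists
    exact ⟨K, K.2, hK⟩
  · tfae_have 1 → 2 := fun h => Filter.Eventually.of_forall fun K => h K K.2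
    tfae_have 2 → 3 := fun h h' => hfalse (tmono (tand h h') fun K _ hK => hK.2.ne hK.1)
    tfae_have 3 → 1 := by
      intro h K hK
      by_contra hc
      refine h (tmono hdim fun L _ hL => ?_)
      exact (hL K hK).1.trans_lt (lt_of_le_of_ne (dimH_le_n _) hc)
    tfae_have 1 → 4 := by
      intro h s hs0 hsn
      rcases (content_dichotomy (n := n) (gauge_rpow hs0)).1 with h1 | h1
      · exact h1
      · exfalso
        refine hfalse (tmono h1 fun K hK hK0 => ?_)
        have h2 : dimH (K : Set (E n)) ≤ (Real.toNNReal s : ℝ≥0) := by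
          refine dimH_le_of_hausdorffMeasure_ne_top ?_
          rw [Real.coe_toNNReal s hs0.le]
          show Measure.mkMetric (fun x : ℝ≥0∞ => x ^ s) _ ≠ ∞
          rw [hK0]
          simp
        rw [h K hK] at h2
        have h3 : (n : ℝ≥0) ≤ Real.toNNReal s := by exact_mod_cast h2
        have h4 : (n : ℝ) ≤ s := by
          rw [← NNReal.coe_le_coe, Real.coe_toNNReal s hs0.le] at h3
          exact_mod_cast h3
        linarith
    tfae_have 4 → 1 := by
      intro h K hK
      by_contra hc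
      have h1 : dimH (K : Set (E n)) < n := lt_of_le_of_ne (dimH_le_n _) hc
      obtain ⟨s, h2, h3⟩ := ENNReal.lt_iff_exists_nnreal_btwn.1 h1
      have hs0 : 0 < (s : ℝ) := by
        have : (0 : ℝ≥0∞) < s := (zero_le).trans_lt h2
        exact_mod_cast this
      have hsn : (s : ℝ) < n := by exact_mod_cast h3
      refine (content_dichotomy (n := n) (gauge_rpow hs0)).2 ⟨h s hs0 hsn, ?_⟩
      exact Pool.Agent.Q126.KB.residual_null (gauge_rpow hs0) hK (hausdorffMeasure_of_dimH_lt h2)
    tfae_finish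
  · tfae_have 1 → 2 := fun h => Filter.Eventually.of_forall fun K => h K K.2
    tfae_have 2 → 3 := fun h h' => hfalse (tmono (tand h h') fun K _ hK => hK.2.ne hK.1)
    tfae_have 3 → 1 := by
      intro h K hK
      by_contra hc
      refine h (tmono hdim fun L _ hL => ?_)
      exact (hL K hK).2.trans_lt (lt_of_le_of_ne (lowerMinkowski_le _) hc)
    tfae_have 1 → 4 := by
      intro h ε hε
      rcases vol_dichotomy (n := n) (scale_rpow hε.le) with h1 | h1
      · exact h1
      · exfalso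
        refine hfalse (tmono h1 fun K hK hK0 => ?_)
        have h2 : lowerMinkowski (K : Set (E n)) < n := by
          rw [lowerMinkowski_lt_iff]
          exact (EReal.coe_pos.2 hε).trans_le (le_codim hK0)
        exact h2.ne (h K hK)
    tfae_have 4 → 1 := by
      intro h K hK
      by_contra hc
      have h1 := lt_of_le_of_ne (lowerMinkowski_le K) hc
      rw [lowerMinkowski_lt_iff] at h1
      obtain ⟨ε, h2, h3⟩ := EReal.lt_iff_exists_real_btwn.1 h1
      obtain ⟨R, hR⟩ := exists_ball K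
      obtain ⟨b, hb, hb'⟩ := h ε (EReal.coe_pos.1 h2) R
      exact absurd (codim_le (ENNReal.ofReal_pos.2 hb) (hb' K hK hR)) (not_le.2 h3)
    tfae_finish

end Pool.Agent.Results.MP_b1773a_an.TypicalKakeyaSets
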